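import Pool.Agent.H940.Z.Rec
import Pool.Agent.H940.LT.Hom
import Pool.Graph.R_pool_sql_team_seeded_3997aac3.Q57.MD.Rows

set_option autoImplicit false
set_option linter.unusedSectionVars false
set_option linter.unusedVariables false

/-! # Weighted homogeneous isolated singularities -/

namespace Pool.Agent.H940.Z

open MvPolynomial Pool.Agent.W428.MOT Pool.Agent.TH192.MT Pool.Agent.TH192.DT Pool.Agent.Q49.CO
open Pool.Agent.Q57.QM Pool.Agent.Y229 Pool.Agent.Q57.MC Pool.Agent.Q57.MD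
open Pool.Agent.W574.LM (IsLocEq)
open Pool.Agent.H940.LT

/-- a functional equation with `H(p) ≠ 0` has the root `-1` -/
theorem sf_neg_one {σ : Type} [Fintype σ] (F : MvPolynomial σ ℂ) (hF : F ≠ 0) (p : σ → ℂ)
    (h0 : eval p F = 0) : SF (fun _ : Fin 1 => F) p (-1) := by
  classical
  refine sf_of_local _ _ _ (fun H b hb hH => ?_) (exists_fe _ ⟨0, hF⟩)
  obtain ⟨P, hP⟩ := eq_of_locEq1 H _ b hb
  refine Pool.Agent.W574.HS.minus_one F H hF ?_ b P hP
  rintro ⟨G, rfl⟩
  apply hH
  rw [map_mul, h0, zero_mul]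

variable {n : ℕ}

theorem euler_w (w : Fin n → ℕ) (g : MvPolynomial (Fin n) ℂ) (N : ℕ)
    (hg : IsWeightedHomogeneous w g N) :
    ∑ i, (C (w i : ℂ) * X i) * pderiv i g = C (N : ℂ) * g := by
  have key : ∀ α : Fin n →₀ ℕ, ∀ a : ℂ, ∑ i, (C (w i : ℂ) * X i) * pderiv i (monomial α a) =
      C ((∑ i, w i * α i : ℕ) : ℂ) * monomial α a := by
    intro α a
    have h1 : ∀ i, (C (w i : ℂ) * X i) * pderiv i (monomial α a) =
        C ((w i * α i : ℕ) : ℂ) * monomial α a := by
      intro i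
      rw [mul_assoc, X_mul_pderiv_monomial, nsmul_eq_mul, ← mul_assoc]
      congr 1
      push_cast
      rw [map_mul, map_natCast, map_natCast]
    rw [Finset.sum_congr rfl fun i _ => h1 i, ← Finset.sum_mul]
    congr 1
    rw [← map_sum]
    push_cast
    rfl
  conv_lhs => rw [g.as_sum]
  conv_rhs => rw [g.as_sum]
  simp only [map_sum, Finset.mul_sum]
  rw [Finset.sum_comm]
  refine Finset.sum_congr rfl fun α hα => ?_
  rw [key]
  congr 3
  have h1 := hg (mem_support_iff.1 hα)
  rw [← h1, Finsupp.weight_apply, Finsupp.sum_fintype _ _ (by simp)]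
  refine Finset.sum_congr rfl fun i _ => ?_
  rw [smul_eq_mul, mul_comm]

/-- the divergence of a Koszul syzygy -/
theorem dv_koszul {r : ℕ} (f : MvPolynomial (Fin r) ℂ) (h0 : ∀ i, constantCoeff (pderiv i f) = 0)
    (hK : KOS fun i => pderiv i f) (η : Fin r → MvPolynomial (Fin r) ℂ)
    (hη : ∑ i, η i * pderiv i f = 0) : constantCoeff (dv η) = 0 := by
  classical
  obtain ⟨a, ha1, ha2, ha3⟩ := hK η hη
  have h1 : dv η = ∑ i, ∑ j, (pderiv i (a i j) * pderiv j f + a i j * pderiv i (pderiv j f)) := by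
    unfold dv
    refine Finset.sum_congr rfl fun i _ => ?_
    rw [ha3 i, map_sum]
    refine Finset.sum_congr rfl fun j _ => ?_
    rw [pderiv_mul]
  have h2 : ∑ i, ∑ j, a i j * pderiv i (pderiv j f) = 0 := by
    have h3 : ∑ i, ∑ j, a i j * pderiv i (pderiv j f) =
        -∑ i, ∑ j, a i j * pderiv i (pderiv j f) := by
      conv_lhs => rw [Finset.sum_comm]
      rw [← Finset.sum_neg_distrib]
      refine Finset.sum_congr rfl fun i _ => ?_
      rw [← Finset.sum_neg_distrib]
      refine Finset.sum_congr rfl fun j _ => ?_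
      rw [ha2 j i, pderiv_comm']
      ring
    have h4 : (2 : MvPolynomial (Fin r) ℂ) * ∑ i, ∑ j, a i j * pderiv i (pderiv j f) = 0 := by
      linear_combination h3
    exact (mul_eq_zero.1 h4).resolve_left two_ne_zero
  rw [h1]
  simp only [Finset.sum_add_distrib]
  rw [h2, add_zero, map_sum]
  refine Finset.sum_eq_zero fun i _ => ?_
  rw [map_sum]
  exact Finset.sum_eq_zero fun j _ => by rw [map_mul, h0, mul_zero]

/-- A weighted homogeneous polynomial with an isolated critical point at the origin. -/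
structure WHI (g : MvPolynomial (Fin n) ℂ) (w : Fin n → ℕ) (N : ℕ) : Prop where
  wpos : ∀ i, 0 < w i
  hom : IsWeightedHomogeneous w g N
  crit : ∀ v : Fin n → ℂ, (∀ i, eval v (pderiv i g) = 0) ↔ v = 0

namespace WHI

variable {g : MvPolynomial (Fin n) ℂ} {w : Fin n → ℕ} {N : ℕ} (h : WHI g w N)
include h

theorem cc (i : Fin n) : constantCoeff (pderiv i g) = 0 := by
  have := (h.crit 0).2 rfl i
  rwa [eval_zero] at this

theorem lt (i : Fin n) : w i < N := by
  classical
  by_contra hc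
  rw [not_lt] at hc
  have h1 : ∀ j, eval (Pi.single i 1) (pderiv j g) = 0 := by
    intro j
    rw [eval_eq']
    refine Finset.sum_eq_zero fun α hα => ?_
    by_cases h0 : ∀ l, l ≠ i → α l = 0
    · by_cases h2 : α i = 0
      · have h3 : α = 0 := by
          ext l
          by_cases hl : l = i
          · rw [hl, h2]
            rfl
          · rw [h0 l hl]
            rfl
        have h4 := h.cc j
        rw [h3]
        change coeff 0 (pderiv j g) * _ = 0
        have h5 : coeff 0 (pderiv j g) = 0 := h4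
        rw [h5, zero_mul]
      · exfalso
        obtain ⟨β, hβ⟩ : ∃ β : Fin n →₀ ℕ, β = α + Finsupp.single j 1 := ⟨_, rfl⟩
        have h3 : coeff β g ≠ 0 := by
          intro h4
          apply mem_support_iff.1 hα
          rw [coeff_pderiv, ← hβ, h4]
          simp
        have h4 := h.hom h3
        rw [Finsupp.weight_apply, Finsupp.sum_fintype _ _ (by simp)] at h4
        have h5 : β i • w i ≤ ∑ l, β l • w l :=
          Finset.single_le_sum (f := fun l => β l • w l)
            (fun _ _ => Nat.zero_le _) (Finset.mem_univ i)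
        rw [h4, smul_eq_mul, hβ, Finsupp.add_apply] at h5
        have h7 := h.wpos i
        have h8 := h.wpos j
        by_cases hij : i = j
        · subst hij
          rw [Finsupp.single_eq_same] at h5
          have h9 : 2 ≤ α i + 1 := by omega
          have h10 := Nat.mul_le_mul_right (w i) h9
          omega
        · have h9 : β i • w i + β j • w j ≤ ∑ l, β l • w l := by
            rw [← Finset.sum_pair (f := fun l => β l • w l) hij]
            exact Finset.sum_le_sum_of_subset (Finset.subset_univ _)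
          rw [h4, smul_eq_mul, smul_eq_mul, hβ, Finsupp.add_apply, Finsupp.add_apply,
            Finsupp.single_eq_same, Finsupp.single_eq_of_ne hij, add_zero] at h9
          have h10 : 1 ≤ α i := Nat.one_le_iff_ne_zero.2 h2
          have h11 := Nat.mul_le_mul_right (w i) h10
          have h12 := Nat.mul_le_mul_right (w j) (show 1 ≤ α j + 1 by omega)
          omega
    · push Not at h0
      obtain ⟨l, hl, hl2⟩ := h0
      have h2 : ∏ x, (Pi.single i (1 : ℂ) : Fin n → ℂ) x ^ α x = 0 := by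
        refine Finset.prod_eq_zero (Finset.mem_univ l) ?_
        rw [Pi.single_eq_of_ne hl, zero_pow hl2]
      rw [h2, mul_zero]
  have h2 := congrFun ((h.crit _).1 h1) i
  rw [Pi.single_eq_same] at h2
  exact one_ne_zero h2

theorem reg : RegF fun i => pderiv i g :=
  regF_whi w g N h.wpos h.hom h.lt fun v hv => (h.crit v).1 hv

theorem g0 (hn : 0 < n) : constantCoeff g = 0 := by
  by_contra hc
  have h1 := h.hom (d := 0) hc
  rw [map_zero] at h1
  have := h.lt ⟨0, hn⟩
  omega

theorem ne (hn : 0 < n) : g ≠ 0 := by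
  rintro rfl
  have h1 := (h.crit fun _ => 1).1 fun i => by rw [map_zero, map_zero]
  exact one_ne_zero (congrFun h1 ⟨0, hn⟩)

/-- the root `-|w| / N` -/
theorem sf (hn : 0 < n) : SF (fun _ : Fin 1 => g) 0 (-((∑ i, w i : ℕ) : ℂ) / N) := by
  classical
  have hNpos : 0 < N := lt_of_le_of_lt (Nat.zero_le _) (h.lt ⟨0, hn⟩)
  refine sf_of_local _ _ _ (fun H b hb hH => ?_) (exists_fe _ ⟨0, h.ne hn⟩)
  obtain ⟨P, hP⟩ := eq_of_locEq1 H _ b hb
  have h1 : dv (fun i => C (w i : ℂ) * X i) = C ((∑ i, w i : ℕ) : ℂ) := by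
    unfold dv
    push_cast
    rw [map_sum]
    refine Finset.sum_congr rfl fun i _ => ?_
    rw [pderiv_C_mul, pderiv_X_self, mul_one]
  have h2 := root_or_field g (h.ne hn) (h.g0 hn) h.reg.lty (fun i => C (w i : ℂ) * X i) (N : ℂ)
    (by exact_mod_cast hNpos.ne') (euler_w w g N h.hom) (fun i => by
      rw [map_mul, constantCoeff_X, mul_zero]) H (by rwa [eval_zero] at hH) b P hP
  rw [h1, constantCoeff_C] at h2
  rcases h2 with h2 | ⟨η, h3, h4⟩
  · exact h2
  · exact absurd (dv_koszul g h.cc h.reg.kos η h3) h4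

/-- the powers of the coordinates are in the ideal of the partial derivatives -/
theorem pow_mem : ∃ M : ℕ, ∀ i, X i ^ M ∈ Ideal.span (Set.range fun i => pderiv i g) := by
  have h1 : ∀ i, ∃ M : ℕ, X i ^ M ∈ Ideal.span (Set.range fun i => pderiv i g) := by
    intro i
    have h2 : X i ∈ (Ideal.span (Set.range fun i => pderiv i g)).radical := by
      rw [← vanishingIdeal_zeroLocus_eq_radical (K := ℂ)]
      intro q hq
      rw [mem_zeroLocus_iff] at hq
      have h3 : q = 0 := (h.crit q).1 fun i => hq _ (Ideal.subset_span ⟨i, rfl⟩)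
      change eval q (X i) = 0
      rw [eval_X, h3]
      rfl
    exact h2
  choose M hM using h1
  refine ⟨∑ i, M i, fun i => ?_⟩
  exact Ideal.mem_of_dvd _ (pow_dvd_pow _ (Finset.single_le_sum (fun i _ => Nat.zero_le (M i))
    (Finset.mem_univ i))) (hM i)

end WHI

theorem vn_of_pow {F : Type} [Field F] {M a : ℕ} {w : PowerSeries F} (h : Vn (M * a) (w ^ M))
    (hM : 0 < M) : Vn a w := by
  by_cases hw : w = 0
  · rw [hw]
    intro j _
    rw [map_zero]
  · obtain ⟨k, h1, h2⟩ := exists_lead w hw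
    by_contra hc
    have hk : k < a := by
      by_contra hk
      exact hc (vn_mono h1 (by omega))
    obtain ⟨b, hb⟩ := vn_iff.1 h1
    have h3 : PowerSeries.coeff 0 b ≠ 0 := by
      have h4 := PowerSeries.coeff_X_pow_mul b k 0
      rw [Nat.zero_add, ← hb] at h4
      rwa [h4] at h2
    have h4 := h (k * M) (by
      rw [mul_comm]
      exact Nat.mul_lt_mul_of_pos_left hk hM)
    rw [hb, mul_pow, ← pow_mul] at h4
    have h5 := PowerSeries.coeff_X_pow_mul (b ^ M) (k * M) 0
    rw [Nat.zero_add, h4, PowerSeries.coeff_zero_eq_constantCoeff_apply, map_pow,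
      ← PowerSeries.coeff_zero_eq_constantCoeff_apply] at h5
    exact pow_ne_zero M h3 h5.symm

/-- multiplication of the coordinates by powers of `t` and weights -/
theorem aeval_ts {w : Fin n → ℕ} {g : MvPolynomial (Fin n) ℂ} {N : ℕ}
    (hg : IsWeightedHomogeneous w g N) (γ : Arc ℂ (Fin n)) :
    aeval (ts w γ) g = PowerSeries.X ^ N * aeval γ g := by
  rw [g.as_sum, map_sum, map_sum, Finset.mul_sum]
  refine Finset.sum_congr rfl fun α hα => ?_
  rw [aeval_monomial, aeval_monomial]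
  have h1 := hg (mem_support_iff.1 hα)
  rw [Finsupp.weight_apply, Finsupp.sum_fintype _ _ (by simp)] at h1
  rw [Finsupp.prod_fintype _ _ (fun i => pow_zero _), Finsupp.prod_fintype _ _ (fun i => pow_zero _)]
  have h2 : ∏ i, ts w γ i ^ α i = PowerSeries.X ^ N * ∏ i, γ i ^ α i := by
    rw [← h1, ← Finset.prod_pow_eq_pow_sum, ← Finset.prod_mul_distrib]
    refine Finset.prod_congr rfl fun i _ => ?_
    unfold ts
    rw [mul_pow, ← pow_mul, smul_eq_mul, mul_comm (w i)]
  rw [h2]
  ring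

/-- elements of the Jacobian ideal -/
theorem vn_mem {σ : Type} [Fintype σ] {f : MvPolynomial σ ℂ} {e : ℕ} {γ : Arc ℂ σ}
    (h : ∀ s, Vn e (aeval γ (pderiv s f))) {P : MvPolynomial σ ℂ}
    (hP : P ∈ Ideal.span (Set.range fun i => pderiv i f)) : Vn e (aeval γ P) := by
  obtain ⟨c, rfl⟩ := (Ideal.mem_span_range_iff_exists_fun (R := MvPolynomial σ ℂ)).1 hP
  rw [map_sum]
  refine vn_sum _ _ fun i _ => ?_
  rw [map_mul]
  exact vn_mul _ (h i)

/-- **Weighted homogeneous polynomials with an isolated critical point.** -/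
theorem WHI.pm {M : Meas ℂ (MK ℂ)} (hL : M.L = ((Lu ℂ : (MK ℂ)ˣ) : MK ℂ))
    {g : MvPolynomial (Fin n) ℂ} {w : Fin n → ℕ} {N : ℕ} (h : WHI g w N) (hn : 0 < n) :
    PM M true (fun _ : Fin 1 => g) := by
  classical
  have hv : M.L * (((Lu ℂ)⁻¹ : (MK ℂ)ˣ) : MK ℂ) = 1 := by rw [hL, Units.mul_inv]
  have hNpos : 0 < N := lt_of_le_of_lt (Nat.zero_le _) (h.lt ⟨0, hn⟩)
  have hwpos : 0 < ∑ i, w i := Finset.sum_pos (fun i _ => h.wpos i) ⟨⟨0, hn⟩, Finset.mem_univ _⟩
  refine ⟨⟨0, h.ne hn⟩, {(-1, 1), (-((∑ i, w i : ℕ) : ℤ), (N : ℤ))}, ?_, ?_⟩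
  · intro q hq
    rw [Finset.mem_insert, Finset.mem_singleton] at hq
    rcases hq with rfl | rfl
    · refine ⟨by norm_num, by norm_num, ?_⟩
      have h1 := sf_neg_one g (h.ne hn) 0 (by
        rw [eval_zero]
        exact h.g0 hn)
      simpa using h1
    · refine ⟨?_, ?_, ?_⟩
      · simp only
        omega
      · simp only
        omega
      · have h1 := h.sf hn
        simp only
        push_cast at h1 ⊢
        exact h1
  · set D : Set (ℤ × ℤ) := (({(-1, 1), (-((∑ i, w i : ℕ) : ℤ), (N : ℤ))} : Finset (ℤ × ℤ)) :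
      Set (ℤ × ℤ)) with hD
    have hD1 : (-1, 1) ∈ D := by
      rw [hD, Finset.coe_insert]
      exact Set.mem_insert _ _
    have hD2 : (-((∑ i, w i : ℕ) : ℤ), (N : ℤ)) ∈ D := by
      rw [hD, Finset.coe_insert, Finset.coe_singleton]
      exact Set.mem_insert_of_mem _ (Set.mem_singleton _)
    obtain ⟨m, hm⟩ := h.pow_mem
    -- the gradient outside of the box
    have hgr : ∀ γ : Arc ℂ (Fin n), ¬ Box 1 w γ → ∃ s,
        ¬ Vn ((m + 1) * ∑ i, w i) (aeval γ (pderiv s g)) := by
      intro γ hγ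
      by_contra hc
      push Not at hc
      apply hγ
      intro i
      rw [la_one]
      refine vn_of_pow (M := m + 1) ?_ (Nat.succ_pos m)
      have h1 := vn_mem hc (Ideal.mem_of_dvd _ (pow_dvd_pow (X i) (Nat.le_succ m)) (hm i))
      rw [map_pow, aeval_X] at h1
      exact vn_mono h1 (Nat.mul_le_mul_left _ (Finset.single_le_sum
        (fun i _ => Nat.zero_le (w i)) (Finset.mem_univ i)))
    have hb := cyl_Box (1 : Matrix (Fin n) (Fin n) ℂ) w
    have htt : ∀ γ : Arc ℂ (Fin n), tt 1 1 w γ = ts w γ := by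
      intro γ
      unfold tt
      rw [la_one, la_one]
    have hscale := VS_tt M hv (A := 1) (B := 1) (mul_one _) (mul_one _) w g N (fun γ => by
      rw [htt]
      exact aeval_ts h.hom γ) hb fun γ hγ => hγ
    have htrue : (fun γ : Arc ℂ (Fin n) => Box 1 w (tt 1 1 w γ)) = fun _ => True := by
      refine funext fun γ => propext ⟨fun _ => trivial, fun _ i => ?_⟩
      rw [la_tt (mul_one _)]
      unfold ts
      rw [vn_iff]
      exact Dvd.intro _ rfl
    rw [htrue] at hscale
    have hall : VS M (((Lu ℂ)⁻¹ : (MK ℂ)ˣ) : MK ℂ) (fun _ => True) g ∈ ratU (Lu ℂ) D := by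
      have h1 := VS_split M hv (Cyl.const True 0) hb g
      have h2 : (fun γ : Arc ℂ (Fin n) => True ∧ Box 1 w γ) = Box 1 w :=
        funext fun γ => propext (by tauto)
      have h3 : VS M (((Lu ℂ)⁻¹ : (MK ℂ)ˣ) : MK ℂ) (fun γ : Arc ℂ (Fin n) => True ∧ ¬ Box 1 w γ) g ∈
          ratU (Lu ℂ) D :=
        VS_bdd M (Lu ℂ) hL hD1 g _ ((Cyl.const True _).and hb.not) fun γ hγ => hgr γ hγ.2
      rw [h2, hscale] at h1
      refine geo_solve (Lu ℂ) (ν := ∑ i, w i) (N := N) hNpos hD2 _
        (VS M (((Lu ℂ)⁻¹ : (MK ℂ)ˣ) : MK ℂ) (fun γ : Arc ℂ (Fin n) => True ∧ ¬ Box 1 w γ) g +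
          PowerSeries.C ((((Lu ℂ)⁻¹ : (MK ℂ)ˣ) : MK ℂ) ^ (∑ i, w i)) *
          (PowerSeries.C (vo M (((Lu ℂ)⁻¹ : (MK ℂ)ˣ) : MK ℂ) fun _ : Arc ℂ (Fin n) => True) *
            ∑ j ∈ Finset.range N, PowerSeries.X ^ j)) ?_ ?_
      · exact Subalgebra.add_mem _ h3 (Subalgebra.mul_mem _ (rat_C _ _) (geo_mem M _ hL _ _))
      · linear_combination h1
    have hbox : VS M (((Lu ℂ)⁻¹ : (MK ℂ)ˣ) : MK ℂ) (Box 1 w) g ∈ ratU (Lu ℂ) D := by
      rw [hscale]
      exact Subalgebra.mul_mem _ (rat_C _ _) (Subalgebra.add_mem _ (geo_mem M _ hL _ _)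
        (Subalgebra.mul_mem _ (Subalgebra.pow_mem _ (rat_X _) _) hall))
    have h0 : VS M (((Lu ℂ)⁻¹ : (MK ℂ)ˣ) : MK ℂ) Or g ∈ ratU (Lu ℂ) D := by
      rw [VS_split M hv (cyl_Or 0) hb g]
      have h2 : (fun γ : Arc ℂ (Fin n) => Or γ ∧ Box 1 w γ) = Box 1 w := by
        refine funext fun γ => propext ⟨fun h => h.2, fun h' => ⟨fun i => ?_, h'⟩⟩
        have := h' i 0 (h.wpos i)
        rwa [la_one] at this
      rw [h2]
      exact Subalgebra.add_mem _ hbox (VS_bdd M (Lu ℂ) hL hD1 g _ ((cyl_Or _).and hb.not)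
        fun γ hγ => hgr γ hγ.2)
    rw [SW_true]
    have h1 : VW M (((Lu ℂ)⁻¹ : (MK ℂ)ˣ) : MK ℂ) (fun _ : Fin 1 => g) {0} =
        VS M (((Lu ℂ)⁻¹ : (MK ℂ)ˣ) : MK ℂ) Or g := by
      ext k
      rw [coeff_VW, VS_origin M hv g constr_pt0]
      congr 2
      refine funext fun γ => propext ?_
      rw [Set.mem_singleton_iff]
      exact ⟨fun h i => congrFun h i, fun h => funext h⟩
    rw [h1]
    exact h0

end Pool.Agent.H940.Z
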