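import Pool.Agent.H940.Z.Ser

set_option autoImplicit false
set_option linter.unusedSectionVars false
set_option linter.unusedVariables false

/-! # Recursions from one-parameter groups of linear maps -/

namespace Pool.Agent.H940.Z

open MvPolynomial Pool.Agent.W428.MOT Pool.Agent.TH192.MT Pool.Agent.TH192.DT Pool.Agent.Q49.CO
open Pool.Agent.Q57.QM

variable {K : Type} [Field K] {σ : Type} [Fintype σ] [DecidableEq σ] {R : Type} [CommRing R]
  (M : Meas K R)

/-- multiplication of the coordinates `A γ` by powers of `t` -/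
noncomputable def tt (A B : Matrix σ σ K) (a : σ → ℕ) (γ : Arc K σ) : Arc K σ :=
  la B (ts a (la A γ))

theorem la_tt {A B : Matrix σ σ K} (hAB : A * B = 1) (a : σ → ℕ) (γ : Arc K σ) :
    la A (tt A B a γ) = ts a (la A γ) := by
  unfold tt
  rw [la_la, hAB, la_one]

theorem cyl_tt {P : Arc K σ → Prop} {q : ℕ} (hP : Cyl P q) (A B : Matrix σ σ K) (a : σ → ℕ) :
    Cyl (fun γ => P (tt A B a γ)) q :=
  cyl_la (cyl_ts (cyl_la hP B) a) A

theorem coeff_geo (c : R) (e N : ℕ) :
    PowerSeries.coeff N (PowerSeries.C c * ∑ j ∈ Finset.range e, (PowerSeries.X : PowerSeries R) ^ j)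
      = if N < e then c else 0 := by
  rw [PowerSeries.coeff_C_mul, map_sum]
  simp only [PowerSeries.coeff_X_pow]
  rw [Finset.sum_ite_eq]
  simp only [Finset.mem_range]
  split_ifs
  · rw [mul_one]
  · rw [mul_zero]

section

variable {v : R} (hv : M.L * v = 1)
include hv

theorem vo_tt {P : Arc K σ → Prop} {q : ℕ} (hP : Cyl P q) {A B : Matrix σ σ K} (hAB : A * B = 1)
    (hBA : B * A = 1) (a : σ → ℕ) (h : ∀ γ, P γ → ∀ i, Vn (a i) (la A γ i)) :
    vo M v P = v ^ (∑ i, a i) * vo M v (fun γ => P (tt A B a γ)) := by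
  have h1 := vo_la M hv hP B A hBA hAB
  have h2 := vo_ts M hv _ a rfl (cyl_la hP B) (by
    intro γ hγ i
    have := h _ hγ i
    rwa [la_la, hAB, la_one] at this)
  have h3 := vo_la M hv (cyl_ts (cyl_la hP B) a) A B hAB hBA
  rw [← h1, h2, ← h3]
  rfl

/-- **The series on the image of `tt`.** -/
theorem VS_tt {A B : Matrix σ σ K} (hAB : A * B = 1) (hBA : B * A = 1) (a : σ → ℕ)
    (f : MvPolynomial σ K) (e : ℕ)
    (hf : ∀ γ : Arc K σ, aeval (tt A B a γ) f = PowerSeries.X ^ e * aeval γ f)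
    {P : Arc K σ → Prop} {q : ℕ} (hP : Cyl P q) (h : ∀ γ, P γ → ∀ i, Vn (a i) (la A γ i)) :
    VS M v P f = PowerSeries.C (v ^ (∑ i, a i)) *
      (PowerSeries.C (vo M v fun γ => P (tt A B a γ)) * ∑ j ∈ Finset.range e, PowerSeries.X ^ j +
        PowerSeries.X ^ e * VS M v (fun γ => P (tt A B a γ)) f) := by
  ext N
  rw [PowerSeries.coeff_C_mul, map_add, coeff_geo, PowerSeries.coeff_X_pow_mul', coeff_VS]
  have hPN : Cyl (fun γ => P γ ∧ Vn N (aeval γ f)) (max q N) :=
    (hP.mono (le_max_left _ _)).and (Cyl.vn f (by omega))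
  rw [vo_tt M hv hPN hAB hBA a fun γ hγ => h γ hγ.1]
  congr 1
  by_cases hN : N < e
  · rw [if_pos hN, if_neg (by omega), add_zero]
    refine vo_congr M fun γ => ?_
    rw [hf, vn_X_pow_iff]
    have : N - e = 0 := by omega
    rw [this]
    exact ⟨fun h => h.1, fun h => ⟨h, fun j hj => absurd hj (Nat.not_lt_zero j)⟩⟩
  · rw [if_neg hN, if_pos (by omega), zero_add, coeff_VS]
    refine vo_congr M fun γ => ?_
    rw [hf, vn_X_pow_iff]

end

section box

/-- the coordinates `A γ` have at least the orders `m` -/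
def Box (A : Matrix σ σ K) (m : σ → ℕ) (γ : Arc K σ) : Prop := ∀ i, Vn (m i) (la A γ i)

/-- the origin of the arc is `0` -/
def Or (γ : Arc K σ) : Prop := ∀ i, PowerSeries.coeff 0 (γ i) = 0

theorem cyl_Box (A : Matrix σ σ K) (m : σ → ℕ) : Cyl (Box A m) (∑ i, m i) := by
  have h1 : Cyl (fun γ : Arc K σ => ∀ i, Vn (m i) (γ i)) (∑ i, m i) :=
    Cyl.all fun i => Cyl.vnX i (by
      have := Finset.single_le_sum (fun i _ => Nat.zero_le (m i)) (Finset.mem_univ i)
      omega)
  exact cyl_la h1 A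

theorem cyl_Or (q : ℕ) : Cyl (Or : Arc K σ → Prop) q := Cyl.all fun i => Cyl.c0 i (Nat.zero_le q)

theorem or_la {A B : Matrix σ σ K} (hBA : B * A = 1) {γ : Arc K σ} (h : Or (la A γ)) : Or γ := by
  intro i
  have h1 : γ = la B (la A γ) := by rw [la_la, hBA, la_one]
  rw [h1, coeff_la]
  exact Finset.sum_eq_zero fun j _ => by rw [h j, mul_zero]

theorem or_la' (A : Matrix σ σ K) {γ : Arc K σ} (h : Or γ) : Or (la A γ) := by
  intro i
  rw [coeff_la]
  exact Finset.sum_eq_zero fun j _ => by rw [h j, mul_zero]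

/-- multiplication by `t` -/
theorem tt_one (γ : Arc K σ) : tt (1 : Matrix σ σ K) 1 (fun _ => 1) γ =
    fun i => PowerSeries.X * γ i := by
  unfold tt
  rw [la_one, la_one]
  funext i
  unfold ts
  rw [pow_one]

theorem la_X (A : Matrix σ σ K) (γ : Arc K σ) :
    la A (fun i => PowerSeries.X * γ i) = fun i => PowerSeries.X * la A γ i := by
  funext i
  unfold la
  rw [Finset.mul_sum]
  refine Finset.sum_congr rfl fun j _ => ?_
  ring

variable {v : R} (hv : M.L * v = 1)
include hv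

theorem vo_univ : vo M v (fun _ : Arc K σ => True) = 1 := vo_true M hv

/-- one step -/
theorem box_step (f : MvPolynomial σ K) (d : ℕ)
    (hf : ∀ γ : Arc K σ, aeval (fun i => PowerSeries.X * γ i) f = PowerSeries.X ^ d * aeval γ f)
    (A : Matrix σ σ K) (m : σ → ℕ) :
    VS M v (Box A m) f = VS M v (fun γ => Box A m γ ∧ ¬ Or γ) f +
      PowerSeries.C (v ^ Fintype.card σ) *
      (PowerSeries.C (vo M v (Box A fun i => m i - 1)) * ∑ j ∈ Finset.range d, PowerSeries.X ^ j +
        PowerSeries.X ^ d * VS M v (Box A fun i => m i - 1) f) := by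
  have hb := cyl_Box A m
  rw [VS_split M hv hb (cyl_Or (∑ i, m i)) f, add_comm]
  congr 1
  rw [VS_tt M hv (A := 1) (B := 1) (mul_one _) (mul_one _) (fun _ => 1) f d (by
    intro γ
    rw [tt_one, hf]) (hb.and (cyl_Or _)) (by
    rintro γ ⟨_, h⟩ i
    rw [la_one]
    intro j hj
    have : j = 0 := by omega
    rw [this]
    exact h i)]
  have h1 : ∀ γ : Arc K σ, (Box A m (tt 1 1 (fun _ => 1) γ) ∧ Or (tt 1 1 (fun _ => 1) γ)) ↔
      Box A (fun i => m i - 1) γ := by
    intro γ
    rw [tt_one]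
    unfold Box
    rw [la_X]
    constructor
    · rintro ⟨h, _⟩ i
      have := h i
      rw [← pow_one (PowerSeries.X : PowerSeries (AlgebraicClosure K)), vn_X_pow_iff] at this
      exact this
    · intro h
      refine ⟨fun i => ?_, fun i => ?_⟩
      · rw [← pow_one (PowerSeries.X : PowerSeries (AlgebraicClosure K)), vn_X_pow_iff]
        exact h i
      · rw [PowerSeries.coeff_zero_X_mul]
  have h2 : (fun γ : Arc K σ => Box A m (tt 1 1 (fun _ => 1) γ) ∧ Or (tt 1 1 (fun _ => 1) γ)) =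
      Box A (fun i => m i - 1) := funext fun γ => propext (h1 γ)
  rw [h2]
  simp only [Finset.sum_const, Finset.card_univ, smul_eq_mul, mul_one]

end box

section main

variable (u : Rˣ) (hL : M.L = (u : R))
include hL

theorem geo_mem {D : Set (ℤ × ℤ)} (c : R) (e : ℕ) :
    PowerSeries.C c * ∑ j ∈ Finset.range e, (PowerSeries.X : PowerSeries R) ^ j ∈ ratU u D :=
  Subalgebra.mul_mem _ (rat_C u _) (Subalgebra.sum_mem _ fun j _ => Subalgebra.pow_mem _ (rat_X u) _)

theorem box_zero (A : Matrix σ σ K) : (Box A fun _ => 0 : Arc K σ → Prop) = fun _ => True :=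
  funext fun γ => propext ⟨fun _ => trivial, fun _ i j hj => absurd hj (Nat.not_lt_zero j)⟩

/-- **The scalars.** -/
theorem univ_scalar (D : Set (ℤ × ℤ)) (f : MvPolynomial σ K) (d : ℕ) (hd : 0 < d)
    (hf : ∀ γ : Arc K σ, aeval (fun i => PowerSeries.X * γ i) f = PowerSeries.X ^ d * aeval γ f)
    (hD : (-(Fintype.card σ : ℤ), (d : ℤ)) ∈ D)
    (hJ : VS M ((u⁻¹ : Rˣ) : R) (fun γ => ¬ Or γ) f ∈ ratU u D) :
    VS M ((u⁻¹ : Rˣ) : R) (fun _ => True) f ∈ ratU u D := by
  have hv : M.L * ((u⁻¹ : Rˣ) : R) = 1 := by rw [hL, Units.mul_inv]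
  have h1 := box_step M hv f d hf 1 (fun _ => 0)
  rw [box_zero M u hL] at h1
  simp only [true_and] at h1
  refine geo_solve u (ν := Fintype.card σ) (N := d) hd hD _
    (VS M ((u⁻¹ : Rˣ) : R) (fun γ => ¬ Or γ) f + PowerSeries.C (((u⁻¹ : Rˣ) : R) ^ Fintype.card σ) *
      (PowerSeries.C (vo M ((u⁻¹ : Rˣ) : R) fun _ : Arc K σ => True) *
        ∑ j ∈ Finset.range d, PowerSeries.X ^ j)) ?_ ?_
  · exact Subalgebra.add_mem _ hJ (Subalgebra.mul_mem _ (rat_C u _) (geo_mem M u hL _ _))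
  · linear_combination h1

/-- **A second one-parameter group.** -/
theorem univ_second (D : Set (ℤ × ℤ)) (f : MvPolynomial σ K) (d : ℕ)
    (hf : ∀ γ : Arc K σ, aeval (fun i => PowerSeries.X * γ i) f = PowerSeries.X ^ d * aeval γ f)
    {A B : Matrix σ σ K} (hAB : A * B = 1) (hBA : B * A = 1) (a : σ → ℕ) (e : ℕ) (he : 0 < e)
    (hfe : ∀ γ : Arc K σ, aeval (tt A B a γ) f = PowerSeries.X ^ e * aeval γ f)
    (hD : (-((∑ i, a i : ℕ) : ℤ), (e : ℤ)) ∈ D)
    (hJ : ∀ m : σ → ℕ, VS M ((u⁻¹ : Rˣ) : R) (fun γ => Box A m γ ∧ ¬ Or γ) f ∈ ratU u D) :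
    VS M ((u⁻¹ : Rˣ) : R) (fun _ => True) f ∈ ratU u D := by
  have hv : M.L * ((u⁻¹ : Rˣ) : R) = 1 := by rw [hL, Units.mul_inv]
  set w := ((u⁻¹ : Rˣ) : R) with hw
  set n := Fintype.card σ with hn
  have key : ∀ k : ℕ, ∀ m : σ → ℕ, (∀ i, m i ≤ k) →
      VS M w (fun _ => True) f - VS M w (Box A m) f ∈ ratU u D := by
    intro k
    induction k with
    | zero =>
      intro m hm
      have h0 : m = fun _ => 0 := funext fun i => Nat.le_zero.1 (hm i)
      rw [h0, box_zero M u hL, sub_self]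
      exact zero_mem _
    | succ k ih =>
      intro m hm
      have h1 := box_step M hv f d hf A (fun _ => 0)
      have h2 := box_step M hv f d hf A m
      simp only [Nat.zero_sub] at h1
      rw [box_zero M u hL] at h1
      have h3 := ih (fun i => m i - 1) (fun i => by have := hm i; omega)
      have h4 : VS M w (fun _ => True) f - VS M w (Box A m) f =
          (VS M w (fun γ => True ∧ ¬ Or γ) f - VS M w (fun γ => Box A m γ ∧ ¬ Or γ) f) +
          PowerSeries.C (w ^ n) * (PowerSeries.C (vo M w fun _ : Arc K σ => True) *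
            ∑ j ∈ Finset.range d, PowerSeries.X ^ j) -
          PowerSeries.C (w ^ n) * (PowerSeries.C (vo M w (Box A fun i => m i - 1)) *
            ∑ j ∈ Finset.range d, PowerSeries.X ^ j) +
          PowerSeries.C (w ^ n) * PowerSeries.X ^ d *
            (VS M w (fun _ => True) f - VS M w (Box A fun i => m i - 1) f) := by
        linear_combination h1 - h2
      rw [h4]
      have h5 : VS M w (fun γ => True ∧ ¬ Or γ) f ∈ ratU u D := by
        have h6 := hJ fun _ => 0
        rw [box_zero M u hL] at h6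
        exact h6
      exact Subalgebra.add_mem _ (Subalgebra.sub_mem _ (Subalgebra.add_mem _
        (Subalgebra.sub_mem _ h5 (hJ m))
        (Subalgebra.mul_mem _ (rat_C u _) (geo_mem M u hL _ _)))
        (Subalgebra.mul_mem _ (rat_C u _) (geo_mem M u hL _ _)))
        (Subalgebra.mul_mem _ (Subalgebra.mul_mem _ (rat_C u _)
          (Subalgebra.pow_mem _ (rat_X u) _)) h3)
  have h1 := key (∑ i, a i) a fun i =>
    Finset.single_le_sum (fun i _ => Nat.zero_le (a i)) (Finset.mem_univ i)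
  have h2 := VS_tt M hv hAB hBA a f e hfe (cyl_Box A a) fun γ hγ => hγ
  have h3 : (fun γ : Arc K σ => Box A a (tt A B a γ)) = fun _ => True := by
    refine funext fun γ => propext ⟨fun _ => trivial, fun _ i => ?_⟩
    rw [la_tt hAB]
    unfold ts
    rw [vn_iff]
    exact Dvd.intro _ rfl
  rw [h3] at h2
  refine geo_solve u (ν := ∑ i, a i) (N := e) he hD _
    ((VS M w (fun _ => True) f - VS M w (Box A a) f) + PowerSeries.C (w ^ (∑ i, a i)) *
      (PowerSeries.C (vo M w fun _ : Arc K σ => True) *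
        ∑ j ∈ Finset.range e, PowerSeries.X ^ j)) ?_ ?_
  · exact Subalgebra.add_mem _ h1 (Subalgebra.mul_mem _ (rat_C u _) (geo_mem M u hL _ _))
  · linear_combination h2

/-- the arcs with origin `0` -/
theorem or_of_univ (D : Set (ℤ × ℤ)) (f : MvPolynomial σ K) (d : ℕ)
    (hf : ∀ γ : Arc K σ, aeval (fun i => PowerSeries.X * γ i) f = PowerSeries.X ^ d * aeval γ f)
    (h : VS M ((u⁻¹ : Rˣ) : R) (fun _ => True) f ∈ ratU u D) :
    VS M ((u⁻¹ : Rˣ) : R) Or f ∈ ratU u D := by
  have hv : M.L * ((u⁻¹ : Rˣ) : R) = 1 := by rw [hL, Units.mul_inv]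
  rw [VS_tt M hv (A := 1) (B := 1) (mul_one _) (mul_one _) (fun _ => 1) f d (by
    intro γ
    rw [tt_one, hf]) (cyl_Or 0) (by
    rintro γ h i
    rw [la_one]
    intro j hj
    have : j = 0 := by omega
    rw [this]
    exact h i)]
  have h2 : (fun γ : Arc K σ => Or (tt 1 1 (fun _ => 1) γ)) = fun _ => True := by
    refine funext fun γ => propext ⟨fun _ => trivial, fun _ i => ?_⟩
    rw [tt_one]
    rw [PowerSeries.coeff_zero_X_mul]
  rw [h2]
  exact Subalgebra.mul_mem _ (rat_C u _) (Subalgebra.add_mem _ (geo_mem M u hL _ _)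
    (Subalgebra.mul_mem _ (Subalgebra.pow_mem _ (rat_X u) _) h))

end main

end Pool.Agent.H940.Z
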