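import Pool.Agent.H940.Z.Vol

set_option autoImplicit false
set_option linter.unusedSectionVars false
set_option linter.unusedVariables false

/-! # Series of volumes -/

namespace Pool.Agent.H940.Z

open MvPolynomial Pool.Agent.W428.MOT Pool.Agent.TH192.MT Pool.Agent.TH192.DT Pool.Agent.Q49.CO
open Pool.Agent.Q57.QM

variable {K : Type} [Field K] {σ : Type} [Fintype σ] {R : Type} [CommRing R] (M : Meas K R)

/-- the series of the volumes of the sets of the arcs in `P` on which `f` has order `≥ N` -/
noncomputable def VS (v : R) (P : Arc K σ → Prop) (f : MvPolynomial σ K) : PowerSeries R :=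
  PowerSeries.mk fun N => vo M v fun γ => P γ ∧ Vn N (aeval γ f)

theorem coeff_VS (v : R) (P : Arc K σ → Prop) (f : MvPolynomial σ K) (N : ℕ) :
    PowerSeries.coeff N (VS M v P f) = vo M v fun γ => P γ ∧ Vn N (aeval γ f) :=
  PowerSeries.coeff_mk _ _

theorem VS_congr (v : R) {P Q : Arc K σ → Prop} (f : MvPolynomial σ K) (h : ∀ γ, P γ ↔ Q γ) :
    VS M v P f = VS M v Q f := by
  have h1 : P = Q := funext fun γ => propext (h γ)
  rw [h1]

section

variable {v : R} (hv : M.L * v = 1)
include hv

theorem VS_split {P Q : Arc K σ → Prop} {q q' : ℕ} (hP : Cyl P q) (hQ : Cyl Q q')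
    (f : MvPolynomial σ K) :
    VS M v P f = VS M v (fun γ => P γ ∧ Q γ) f + VS M v (fun γ => P γ ∧ ¬ Q γ) f := by
  ext N
  rw [map_add, coeff_VS, coeff_VS, coeff_VS]
  have hPN : Cyl (fun γ => P γ ∧ Vn N (aeval γ f)) (max q N) :=
    (hP.mono (le_max_left _ _)).and (Cyl.vn f (by omega))
  rw [vo_split M hv hPN hQ]
  congr 1
  · refine vo_congr M fun γ => ?_
    tauto
  · refine vo_congr M fun γ => ?_
    tauto

theorem VS_or {P Q : Arc K σ → Prop} {q q' : ℕ} (hP : Cyl P q) (hQ : Cyl Q q')
    (hd : ∀ γ, P γ → Q γ → False) (f : MvPolynomial σ K) :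
    VS M v (fun γ => P γ ∨ Q γ) f = VS M v P f + VS M v Q f := by
  ext N
  rw [map_add, coeff_VS, coeff_VS, coeff_VS]
  have hPN : Cyl (fun γ => P γ ∧ Vn N (aeval γ f)) (max q N) :=
    (hP.mono (le_max_left _ _)).and (Cyl.vn f (by omega))
  have hQN : Cyl (fun γ => Q γ ∧ Vn N (aeval γ f)) (max q' N) :=
    (hQ.mono (le_max_left _ _)).and (Cyl.vn f (by omega))
  rw [← vo_or M hv hPN hQN fun γ h h' => hd γ h.1 h'.1]
  refine vo_congr M fun γ => ?_
  tauto

theorem VS_false {P : Arc K σ → Prop} (h : ∀ γ, ¬ P γ) (f : MvPolynomial σ K) :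
    VS M v P f = 0 := by
  ext N
  rw [coeff_VS, map_zero]
  exact vo_false M hv fun γ hγ => h γ hγ.1

/-- finite disjoint unions -/
theorem VS_sum {α : Type} (s : Finset α) {P : α → Arc K σ → Prop} {q : ℕ}
    (hP : ∀ a ∈ s, Cyl (P a) q) (hd : ∀ a ∈ s, ∀ b ∈ s, a ≠ b → ∀ γ, P a γ → P b γ → False)
    (f : MvPolynomial σ K) :
    VS M v (fun γ => ∃ a ∈ s, P a γ) f = ∑ a ∈ s, VS M v (P a) f := by
  ext N
  rw [map_sum, coeff_VS]
  simp only [coeff_VS]
  rw [← vo_sum M hv s (q := max q N) (fun a ha => ((hP a ha).mono (le_max_left _ _)).and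
    (Cyl.vn f (by omega))) (fun a ha b hb hab γ h h' => hd a ha b hb hab γ h.1 h'.1)]
  refine vo_congr M fun γ => ?_
  constructor
  · rintro ⟨⟨a, ha, h1⟩, h2⟩
    exact ⟨a, ha, h1, h2⟩
  · rintro ⟨a, ha, h1, h2⟩
    exact ⟨⟨a, ha, h1⟩, h2⟩

/-- the series with origin in a constructible set -/
theorem VS_origin {J : Type} [Finite J] [Nonempty J] (f : MvPolynomial σ K) {W : Set (Pt K σ)}
    (hW : Constr W) (N : ℕ) : vol M v (fun _ : J => f) W N =
      PowerSeries.coeff N (VS M v (fun γ => (fun i => PowerSeries.coeff 0 (γ i)) ∈ W) f) := by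
  rw [coeff_VS, vol_eq_vo M hv _ hW]
  refine vo_congr M fun γ => ?_
  rw [forall_const]

end

section rat

variable (u : Rˣ)

theorem rat_tail {D : Set (ℤ × ℤ)} (Z : PowerSeries R) (N₀ : ℕ)
    (h : ∀ N, N₀ ≤ N → PowerSeries.coeff N Z = 0) : Z ∈ ratU u D := by
  have h1 : Z = ∑ N ∈ Finset.range N₀, PowerSeries.C (PowerSeries.coeff N Z) *
      PowerSeries.X ^ N := by
    ext m
    rw [map_sum]
    simp only [PowerSeries.coeff_C_mul, PowerSeries.coeff_X_pow, mul_ite, mul_one, mul_zero]
    rw [Finset.sum_ite_eq]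
    split_ifs with hm
    · rfl
    · rw [Finset.mem_range, not_lt] at hm
      exact h m hm
  rw [h1]
  exact Subalgebra.sum_mem _ fun N _ => Subalgebra.mul_mem _ (rat_C u _)
    (Subalgebra.pow_mem _ (rat_X u) _)

theorem rat_of_stable {D : Set (ℤ × ℤ)} (hD : (-1, 1) ∈ D) (Z : PowerSeries R) (N₀ : ℕ)
    (h : ∀ N, N₀ ≤ N → PowerSeries.coeff (N + 1) Z = ((u⁻¹ : Rˣ) : R) * PowerSeries.coeff N Z) :
    Z ∈ ratU u D := by
  refine geo_solve u (ν := 1) (N := 1) one_pos hD Z
    (Z - PowerSeries.C (((u⁻¹ : Rˣ) : R) ^ 1) * PowerSeries.X ^ 1 * Z) ?_ (by ring)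
  refine rat_tail u _ (N₀ + 1) fun N hN => ?_
  obtain ⟨m, rfl⟩ : ∃ m, N = m + 1 := ⟨N - 1, by omega⟩
  rw [map_sub, mul_assoc, PowerSeries.coeff_C_mul, pow_one, pow_one, PowerSeries.coeff_succ_X_mul,
    h m (by omega), sub_self]

variable (hL : M.L = (u : R))
include hL

/-- **The series of the volumes on a set on which the order of the gradient is bounded.** -/
theorem VS_bdd {D : Set (ℤ × ℤ)} (hD : (-1, 1) ∈ D) (f : MvPolynomial σ K) (e : ℕ)
    {P : Arc K σ → Prop} {q : ℕ} (hP : Cyl P q)
    (h : ∀ γ, P γ → ∃ s, ¬ Vn e (aeval γ (pderiv s f))) :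
    VS M ((u⁻¹ : Rˣ) : R) P f ∈ ratU u D := by
  have hv : M.L * ((u⁻¹ : Rˣ) : R) = 1 := by rw [hL, Units.mul_inv]
  obtain ⟨N₀, hN₀⟩ := stable M hv f e hP h
  refine rat_of_stable u hD _ N₀ fun N hN => ?_
  rw [coeff_VS, coeff_VS]
  exact hN₀ N hN

end rat

section lin

variable [DecidableEq σ]

/-- a linear map on arcs -/
noncomputable def la (A : Matrix σ σ K) (γ : Arc K σ) : Arc K σ := fun i =>
  ∑ j, PowerSeries.C (algebraMap K (AlgebraicClosure K) (A i j)) * γ j

theorem coeff_la (A : Matrix σ σ K) (γ : Arc K σ) (i : σ) (k : ℕ) :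
    PowerSeries.coeff k (la A γ i) =
      ∑ j, algebraMap K (AlgebraicClosure K) (A i j) * PowerSeries.coeff k (γ j) := by
  unfold la
  rw [map_sum]
  simp only [PowerSeries.coeff_C_mul]

theorem la_la (A B : Matrix σ σ K) (γ : Arc K σ) : la A (la B γ) = la (A * B) γ := by
  funext i
  ext k
  rw [coeff_la, coeff_la]
  simp only [coeff_la]
  have h1 : ∀ x, algebraMap K (AlgebraicClosure K) (A i x) *
      ∑ j, algebraMap K (AlgebraicClosure K) (B x j) * PowerSeries.coeff k (γ j) =
      ∑ j, algebraMap K (AlgebraicClosure K) (A i x * B x j) * PowerSeries.coeff k (γ j) := by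
    intro x
    rw [Finset.mul_sum]
    refine Finset.sum_congr rfl fun j _ => ?_
    rw [map_mul]
    ring
  rw [Finset.sum_congr rfl fun x _ => h1 x, Finset.sum_comm]
  refine Finset.sum_congr rfl fun j _ => ?_
  rw [← Finset.sum_mul, ← map_sum]
  rfl

theorem la_one (γ : Arc K σ) : la (1 : Matrix σ σ K) γ = γ := by
  funext i
  ext k
  rw [coeff_la, Finset.sum_eq_single i]
  · rw [Matrix.one_apply_eq, map_one, one_mul]
  · intro j _ hj
    rw [Matrix.one_apply_ne hj.symm, map_zero, zero_mul]
  · intro h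
    exact absurd (Finset.mem_univ i) h

/-- a linear map on jets -/
noncomputable def lj (A : Matrix σ σ K) {m : ℕ} (z : Pt K (σ × Fin (m + 1))) :
    Pt K (σ × Fin (m + 1)) := fun q =>
  ∑ j, algebraMap K (AlgebraicClosure K) (A q.1 j) * z (j, q.2)

theorem ar_lj (A : Matrix σ σ K) {m : ℕ} (z : Pt K (σ × Fin (m + 1))) :
    ar (lj A z) = la A (ar z) := by
  funext i
  ext k
  rw [coeff_la, coeff_ar]
  by_cases h : k < m + 1
  · rw [dif_pos h]
    unfold lj
    refine Finset.sum_congr rfl fun j _ => ?_
    rw [coeff_ar, dif_pos h]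
  · rw [dif_neg h]
    symm
    refine Finset.sum_eq_zero fun j _ => ?_
    rw [coeff_ar, dif_neg h, mul_zero]

theorem lj_lj (A B : Matrix σ σ K) (h : A * B = 1) {m : ℕ} (z : Pt K (σ × Fin (m + 1))) :
    lj A (lj B z) = z := by
  have h1 : ar (lj A (lj B z)) = ar z := by
    rw [ar_lj, ar_lj, la_la, h, la_one]
  rw [← jet_ar (lj A (lj B z)), h1, jet_ar]

theorem pf_lj (A : Matrix σ σ K) {m : ℕ} (q : σ × Fin (m + 1)) :
    IsPF fun z : Pt K (σ × Fin (m + 1)) => lj A z q :=
  IsPF.sum _ _ fun j _ => (IsPF.const _).mul (IsPF.coord _)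

theorem cyl_la {P : Arc K σ → Prop} {q : ℕ} (hP : Cyl P q) (A : Matrix σ σ K) :
    Cyl (fun γ => P (la A γ)) q where
  det := fun γ δ h => hP.det _ _ fun i k hk => by
    rw [coeff_la, coeff_la]
    exact Finset.sum_congr rfl fun j _ => by rw [h j k hk]
  con := by
    have h1 := hP.con.preimage (fun z : Pt K (σ × Fin (q + 1)) => lj A z) fun i => pf_lj A i
    have h2 : {z : Pt K (σ × Fin (q + 1)) | P (la A (ar z))} =
        {z | lj A z ∈ {z : Pt K (σ × Fin (q + 1)) | P (ar z)}} := by
      ext z
      change P (la A (ar z)) ↔ P (ar (lj A z))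
      rw [ar_lj]
    rw [h2]
    exact h1

variable {v : R} (hv : M.L * v = 1)
include hv

theorem vo_la {P : Arc K σ → Prop} {q : ℕ} (hP : Cyl P q) (A B : Matrix σ σ K) (hAB : A * B = 1)
    (hBA : B * A = 1) : vo M v (fun γ => P (la A γ)) = vo M v P := by
  rw [vo_eq M hv (cyl_la hP A), vo_eq M hv hP]
  unfold vq
  congr 1
  refine M.iso _ _ (cyl_la hP A).con hP.con (fun z => lj A z) (fun z => lj B z)
    (regularOn_poly (fun i => pf_lj A i) _) (regularOn_poly (fun i => pf_lj B i) _) ?_ ?_ ?_ ?_
  · intro z hz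
    change P (ar (lj A z))
    rw [ar_lj]
    exact hz
  · intro z hz
    change P (la A (ar (lj B z)))
    rw [ar_lj, la_la, hAB, la_one]
    exact hz
  · intro z _
    exact lj_lj B A hBA z
  · intro z _
    exact lj_lj A B hAB z

end lin

theorem vn_X_pow {F : Type} [Field F] {a b : ℕ} {w : PowerSeries F} (h : Vn a w) :
    Vn (a + b) (PowerSeries.X ^ b * w) := by
  rw [vn_iff] at h ⊢
  rw [add_comm, pow_add]
  exact mul_dvd_mul_left _ h

theorem vn_X_pow_iff {F : Type} [Field F] {a b : ℕ} {w : PowerSeries F} :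
    Vn a (PowerSeries.X ^ b * w) ↔ Vn (a - b) w := by
  constructor
  · intro h j hj
    have := h (j + b) (by omega)
    rwa [PowerSeries.coeff_X_pow_mul] at this
  · intro h
    exact vn_mono (vn_X_pow (b := b) h) (by omega)

section scale

variable [DecidableEq σ]

/-- multiplication of the coordinates by powers of `t` -/
noncomputable def ts (a : σ → ℕ) (γ : Arc K σ) : Arc K σ := fun i => PowerSeries.X ^ a i * γ i

theorem ts_ts (a b : σ → ℕ) (γ : Arc K σ) : ts a (ts b γ) = ts (a + b) γ := by
  funext i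
  unfold ts
  rw [← mul_assoc, ← pow_add]
  rfl

theorem ts_zero (γ : Arc K σ) : ts 0 γ = γ := by
  funext i
  unfold ts
  rw [Pi.zero_apply, pow_zero, one_mul]

theorem isPA_ar {m : ℕ} (i : σ) : IsPA fun z : Pt K (σ × Fin (m + 1)) => ar z i := by
  intro j
  have h1 : (fun z : Pt K (σ × Fin (m + 1)) => PowerSeries.coeff j (ar z i)) =
      fun z => if h : j < m + 1 then z (i, ⟨j, h⟩) else 0 := by
    funext z
    rw [coeff_ar]
  rw [h1]
  by_cases h : j < m + 1
  · simp only [h, dif_pos]
    exact IsPF.coord _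
  · simp only [h, dif_neg, not_false_eq_true]
    exact IsPF.zero

theorem cyl_ts {P : Arc K σ → Prop} {q : ℕ} (hP : Cyl P q) (a : σ → ℕ) :
    Cyl (fun γ => P (ts a γ)) q where
  det := fun γ δ h => hP.det _ _ fun i k hk => by
    unfold ts
    rw [PowerSeries.coeff_X_pow_mul', PowerSeries.coeff_X_pow_mul']
    split_ifs with h1
    · exact h i _ (by omega)
    · rfl
  con := by
    have h1 := hP.con.preimage (fun z : Pt K (σ × Fin (q + 1)) => jet q (ts a (ar z)))
      fun i => ((IsPA.X.pow (a i.1)).mul (isPA_ar i.1)) (i.2 : ℕ)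
    have h2 : {z : Pt K (σ × Fin (q + 1)) | P (ts a (ar z))} =
        {z | jet q (ts a (ar z)) ∈ {z : Pt K (σ × Fin (q + 1)) | P (ar z)}} := by
      ext z
      exact hP.det _ _ fun i => cg_jet q _ i
    rw [h2]
    exact h1

variable {v : R} (hv : M.L * v = 1)
include hv

/-- multiplication of one coordinate by `t` -/
theorem vo_ts1 {P : Arc K σ → Prop} {q : ℕ} (hP : Cyl P q) (i₀ : σ)
    (h : ∀ γ, P γ → Vn 1 (γ i₀)) :
    vo M v P = v * vo M v (fun γ => P (ts (Pi.single i₀ 1) γ)) := by
  classical
  set m := q + 1 with hm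
  have hPm : Cyl P m := hP.mono (by omega)
  have hPm' : Cyl (fun γ => P (ts (Pi.single i₀ 1) γ)) m := cyl_ts hPm _
  rw [vo_eq M hv hPm, vo_eq M hv hPm']
  unfold vq
  set S' : Set (Pt K (σ × Fin (m + 1))) := {z | P (ts (Pi.single i₀ 1) (ar z))} with hS'
  set C : Finset (σ × Fin (m + 1)) := {(i₀, Fin.last m)} with hC
  -- the coefficient of order `m` of the coordinate `i₀` is free in `S'`
  have key := sLin' M C 1 S' (fun _ _ _ => 1) (fun _ _ => 0) hPm'.con (fun _ _ => IsPF.one)
    (fun _ => IsPF.zero) ?_ ?_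
  · rw [pow_one] at key
    have h0 : ∀ z : Pt K (σ × Fin (m + 1)), (∀ p : Fin 1, ∑ q ∈ C, (1 : AlgebraicClosure K) * z q +
        0 = 0) ↔ z (i₀, Fin.last m) = 0 := by
      intro z
      rw [forall_const, hC, Finset.sum_singleton, one_mul, add_zero]
    have hW : Constr (S' ∩ {z | ∀ p : Fin 1, ∑ q ∈ C, (1 : AlgebraicClosure K) * z q + 0 = 0}) := by
      refine hPm'.con.inter ?_
      have h2 : {z : Pt K (σ × Fin (m + 1)) | ∀ p : Fin 1,
          ∑ q ∈ C, (1 : AlgebraicClosure K) * z q + 0 = 0} = {z | z (i₀, Fin.last m) = 0} := by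
        ext z
        exact h0 z
      rw [h2]
      exact Constr.eqz (IsPF.coord _)
    have h1 : M.χ _ {z : Pt K (σ × Fin (m + 1)) | P (ar z)} =
        M.χ _ (S' ∩ {z | ∀ p : Fin 1, ∑ q ∈ C, (1 : AlgebraicClosure K) * z q + 0 = 0}) := by
      refine M.iso _ _ hPm.con hW
        (fun z q => z (q.1, if q.1 = i₀ then finRotate (m + 1) q.2 else q.2))
        (fun z q => z (q.1, if q.1 = i₀ then (finRotate (m + 1)).symm q.2 else q.2))
        (regularOn_poly (fun i => IsPF.coord _) _) (regularOn_poly (fun i => IsPF.coord _) _)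
        ?_ ?_ ?_ ?_
      · intro z hz
        have hz0 : z (i₀, 0) = 0 := by
          have := h _ hz 0 one_pos
          rwa [coeff_ar_zero] at this
        set w : Pt K (σ × Fin (m + 1)) := fun q =>
          z (q.1, if q.1 = i₀ then finRotate (m + 1) q.2 else q.2) with hw
        have hw0 : w (i₀, Fin.last m) = 0 := by
          simp only [hw]
          rw [if_pos trivial, finRotate_last, hz0]
        have h3 : ts (Pi.single i₀ 1) (ar w) = ar z := by
          funext i
          ext j
          unfold ts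
          by_cases hi : i = i₀
          · subst hi
            rw [Pi.single_eq_same, pow_one]
            cases j with
            | zero => rw [PowerSeries.coeff_zero_X_mul, coeff_ar_zero, hz0]
            | succ j =>
              rw [PowerSeries.coeff_succ_X_mul, coeff_ar, coeff_ar]
              by_cases hj : j + 1 < m + 1
              · rw [dif_pos (by omega), dif_pos hj]
                simp only [hw]
                rw [if_pos trivial, finRotate_of_lt (by omega)]
              · rw [dif_neg hj]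
                by_cases hj2 : j < m + 1
                · rw [dif_pos hj2]
                  have : (⟨j, hj2⟩ : Fin (m + 1)) = Fin.last m := by
                    ext
                    simp only [Fin.val_last]
                    omega
                  rw [this]
                  exact hw0
                · rw [dif_neg hj2]
          · rw [Pi.single_eq_of_ne hi, pow_zero, one_mul, coeff_ar, coeff_ar]
            simp only [hw, hi, if_false]
        refine ⟨?_, (h0 w).2 hw0⟩
        change P (ts (Pi.single i₀ 1) (ar w))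
        rw [h3]
        exact hz
      · rintro w ⟨hw, hw'⟩
        have hw0 := (h0 w).1 hw'
        set z : Pt K (σ × Fin (m + 1)) := fun q =>
          w (q.1, if q.1 = i₀ then (finRotate (m + 1)).symm q.2 else q.2) with hz
        have hlast : (finRotate (m + 1)).symm 0 = Fin.last m := by
          rw [Equiv.symm_apply_eq, finRotate_last]
        have hz0 : z (i₀, 0) = 0 := by
          simp only [hz]
          rw [if_pos trivial, hlast, hw0]
        have h3 : ts (Pi.single i₀ 1) (ar w) = ar z := by
          funext i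
          ext j
          unfold ts
          by_cases hi : i = i₀
          · subst hi
            rw [Pi.single_eq_same, pow_one]
            cases j with
            | zero => rw [PowerSeries.coeff_zero_X_mul, coeff_ar_zero, hz0]
            | succ j =>
              rw [PowerSeries.coeff_succ_X_mul, coeff_ar, coeff_ar]
              by_cases hj : j + 1 < m + 1
              · rw [dif_pos (by omega), dif_pos hj]
                simp only [hz]
                have h4 : (finRotate (m + 1)).symm ⟨j + 1, hj⟩ = ⟨j, by omega⟩ := by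
                  rw [Equiv.symm_apply_eq, finRotate_of_lt (by omega)]
                rw [if_pos trivial, h4]
              · rw [dif_neg hj]
                by_cases hj2 : j < m + 1
                · rw [dif_pos hj2]
                  have : (⟨j, hj2⟩ : Fin (m + 1)) = Fin.last m := by
                    ext
                    simp only [Fin.val_last]
                    omega
                  rw [this]
                  exact hw0
                · rw [dif_neg hj2]
          · rw [Pi.single_eq_of_ne hi, pow_zero, one_mul, coeff_ar, coeff_ar]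
            simp only [hz, hi, if_false]
        change P (ar z)
        rw [← h3]
        exact hw
      · intro z _
        funext ⟨i, j⟩
        by_cases hi : i = i₀
        · simp [hi]
        · simp [hi]
      · intro w _
        funext ⟨i, j⟩
        by_cases hi : i = i₀
        · simp [hi]
        · simp [hi]
    rw [h1, ← key]
    linear_combination -(M.χ _ (S' ∩ {z | ∀ p : Fin 1, ∑ q ∈ C, (1 : AlgebraicClosure K) * z q + 0
      = 0}) * v ^ (Fintype.card σ * (m + 1))) * hv
  · intro z w hzw
    refine ⟨fun hz => ?_, fun _ _ => rfl, fun _ => rfl⟩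
    refine (hP.det _ _ fun i k hk => ?_).2 hz
    unfold ts
    rw [PowerSeries.coeff_X_pow_mul', PowerSeries.coeff_X_pow_mul']
    split_ifs with h1
    · rw [coeff_ar, coeff_ar, dif_pos (by omega), dif_pos (by omega)]
      refine hzw _ fun hc => ?_
      rw [hC, Finset.mem_singleton] at hc
      have := congrArg (fun q => (q.2 : ℕ)) hc
      simp only [Fin.val_last] at this
      omega
    · rfl
  · intro z _ l hl p
    have h3 := hl (i₀, Fin.last m) (Finset.mem_singleton_self _)
    rw [Fin.sum_univ_one, mul_one] at h3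
    rw [Subsingleton.elim p 0]
    exact h3

/-- **Multiplication of the coordinates by powers of `t`.** -/
theorem vo_ts : ∀ (k : ℕ) (a : σ → ℕ), ∑ i, a i = k → ∀ {P : Arc K σ → Prop} {q : ℕ}, Cyl P q →
    (∀ γ, P γ → ∀ i, Vn (a i) (γ i)) →
    vo M v P = v ^ (∑ i, a i) * vo M v (fun γ => P (ts a γ)) := by
  intro k
  induction k with
  | zero =>
    intro a ha P q hP h
    have h0 : a = 0 := by
      funext i
      exact (Finset.sum_eq_zero_iff.1 ha) i (Finset.mem_univ i)
    subst h0
    simp only [ts_zero, Pi.zero_apply, Finset.sum_const_zero, pow_zero, one_mul]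
  | succ k ih =>
    intro a ha P q hP h
    obtain ⟨i₀, -, hi₀⟩ : ∃ i ∈ Finset.univ, a i ≠ 0 := by
      by_contra hc
      push Not at hc
      rw [Finset.sum_eq_zero hc] at ha
      omega
    set b : σ → ℕ := a - Pi.single i₀ 1 with hb
    have hab : a = Pi.single i₀ 1 + b := by
      funext i
      rw [hb, Pi.add_apply, Pi.sub_apply]
      by_cases hi : i = i₀
      · subst hi
        rw [Pi.single_eq_same]
        omega
      · rw [Pi.single_eq_of_ne hi]
        omega
    have hsum : ∑ i, a i = 1 + ∑ i, b i := by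
      have h1 : ∑ i, a i = ∑ i, ((Pi.single i₀ 1 : σ → ℕ) i + b i) :=
        Finset.sum_congr rfl fun i _ => congrFun hab i
      rw [h1, Finset.sum_add_distrib, Finset.sum_pi_single', if_pos (Finset.mem_univ i₀)]
    rw [vo_ts1 M hv hP i₀ fun γ hγ => vn_mono (h γ hγ i₀) (by omega),
      ih b (by omega) (cyl_ts hP _) ?_, hsum, pow_add, pow_one, mul_assoc]
    · simp only [ts_ts]
      rw [← hab]
    · intro γ hγ i
      have h1 := h _ hγ i
      unfold ts at h1
      rw [vn_X_pow_iff] at h1
      refine vn_mono h1 ?_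
      rw [hb, Pi.sub_apply]

end scale

end Pool.Agent.H940.Z
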