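import Pool.Graph.R_pool_sql_team_seeded_3997aac3.Q57.QM.Cyl

set_option autoImplicit false
set_option linter.unusedSectionVars false
set_option linter.unusedVariables false

/-! # Volumes on sets of arcs on which the gradient has a bounded order -/

namespace Pool.Agent.H940.Z

open MvPolynomial Pool.Agent.W428.MOT Pool.Agent.TH192.MT Pool.Agent.TH192.DT Pool.Agent.Q49.CO
open Pool.Agent.Q57.QM

section taylor

variable {K F : Type} [Field K] [Field F] [Algebra K F] {σ : Type} [Fintype σ]

/-- Taylor's formula of order two -/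
theorem taylor2 (P : MvPolynomial σ K) (k : ℕ) (δ u : σ → PowerSeries F) :
    PowerSeries.X ^ (2 * k) ∣ aeval (fun i => δ i + PowerSeries.X ^ k * u i) P - aeval δ P -
      PowerSeries.X ^ k * ∑ s, aeval δ (pderiv s P) * u s := by
  classical
  induction P using MvPolynomial.induction_on with
  | C a =>
    simp only [algHom_C, pderiv_C, map_zero, zero_mul, Finset.sum_const_zero, mul_zero, sub_self,
      dvd_zero]
  | add p q hp hq =>
    obtain ⟨A, hA⟩ := hp
    obtain ⟨B, hB⟩ := hq
    refine ⟨A + B, ?_⟩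
    simp only [map_add, add_mul, Finset.sum_add_distrib]
    linear_combination hA + hB
  | mul_X p i hp =>
    obtain ⟨A, hA⟩ := hp
    set S := ∑ s, aeval δ (pderiv s p) * u s with hS
    have h1 : ∑ s, aeval δ (pderiv s (p * X i)) * u s = S * δ i + aeval δ p * u i := by
      have h2 : ∀ s, aeval δ (pderiv s (p * X i)) * u s =
          (aeval δ (pderiv s p) * u s) * δ i + (if s = i then aeval δ p * u i else 0) := by
        intro s
        rw [pderiv_mul, map_add, map_mul, map_mul, aeval_X]
        by_cases hs : s = i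
        · subst hs
          rw [pderiv_X_self, map_one, if_pos rfl]
          ring
        · rw [pderiv_X_of_ne (Ne.symm hs), map_zero, if_neg hs]
          ring
      rw [Finset.sum_congr rfl fun s _ => h2 s, Finset.sum_add_distrib, ← Finset.sum_mul,
        Finset.sum_ite_eq', if_pos (Finset.mem_univ i)]
    rw [h1, map_mul, map_mul, aeval_X, aeval_X]
    refine ⟨A * (δ i + PowerSeries.X ^ k * u i) + S * u i, ?_⟩
    have h3 : (PowerSeries.X : PowerSeries F) ^ (2 * k) =
        PowerSeries.X ^ k * PowerSeries.X ^ k := by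
      rw [← pow_add]
      congr 1
      omega
    rw [h3] at hA ⊢
    linear_combination (δ i + PowerSeries.X ^ k * u i) * hA

end taylor

variable {K : Type} [Field K] {σ : Type} [Fintype σ] {R : Type} [CommRing R] (M : Meas K R)

/-- the order of the gradient is `e` -/
def GO (f : MvPolynomial σ K) (e : ℕ) (γ : Arc K σ) : Prop :=
  (∀ s, Vn e (aeval γ (pderiv s f))) ∧ ∃ s, PowerSeries.coeff e (aeval γ (pderiv s f)) ≠ 0

theorem cyl_coeff (f : MvPolynomial σ K) {e q : ℕ} (h : e ≤ q) :
    Cyl (fun γ : Arc K σ => PowerSeries.coeff e (aeval γ f) = 0) q where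
  det := fun γ δ hγ => by rw [cg_aevalK f q γ δ hγ e h]
  con := Constr.eqz (pf_coeffK (fun z => z) (fun i => IsPF.coord _) _ _)

theorem cyl_GO (f : MvPolynomial σ K) {e q : ℕ} (h : e ≤ q) : Cyl (GO f e) q :=
  (Cyl.all fun s => Cyl.vn (pderiv s f) (by omega)).and
    (Cyl.ex fun s => (cyl_coeff (pderiv s f) h).not)

theorem step_chi (f : MvPolynomial σ K) {P : Arc K σ → Prop} {q e N : ℕ} (hP : Cyl P q)
    (h1 : 2 * e < N) (h2 : q + e < N) :
    M.χ _ {z : Pt K (σ × Fin (N + 1)) | (P (ar z) ∧ GO f e (ar z)) ∧ Vn (N + 1) (aeval (ar z) f)} *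
      M.L =
    M.χ _ {z : Pt K (σ × Fin (N + 1)) | (P (ar z) ∧ GO f e (ar z)) ∧ Vn N (aeval (ar z) f)} := by
  classical
  set k := N - e with hk
  set k' : Fin (N + 1) := ⟨k, by omega⟩ with hk'
  set C : Finset (σ × Fin (N + 1)) := Finset.univ.image (fun s => (s, k')) with hC
  have hmC : ∀ p, p ∈ C ↔ p.2 = k' := by
    intro p
    rw [hC, Finset.mem_image]
    constructor
    · rintro ⟨v, _, rfl⟩
      rfl
    · intro h
      exact ⟨p.1, Finset.mem_univ _, Prod.ext rfl h.symm⟩
  set S : Set (Pt K (σ × Fin (N + 1))) :=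
    {z | (P (ar z) ∧ GO f e (ar z)) ∧ Vn N (aeval (ar z) f)} with hS
  set zr : Pt K (σ × Fin (N + 1)) → Pt K (σ × Fin (N + 1)) := fun z q =>
    if q.2 = k' then 0 else z q with hzr
  set D : Fin 1 → (σ × Fin (N + 1)) → Pt K (σ × Fin (N + 1)) → AlgebraicClosure K :=
    fun _ q z => PowerSeries.coeff e (aeval (ar z) (pderiv q.1 f)) with hD
  set H : Fin 1 → Pt K (σ × Fin (N + 1)) → AlgebraicClosure K :=
    fun _ z => PowerSeries.coeff N (aeval (ar (zr z)) f) with hH
  have hcyl : Cyl (fun γ : Arc K σ => (P γ ∧ GO f e γ) ∧ Vn N (aeval γ f)) N :=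
    ((hP.mono (by omega)).and (cyl_GO f (by omega))).and (Cyl.vn f (by omega))
  -- arcs which differ in the coefficient of `X ^ k`
  have hdiff : ∀ z w : Pt K (σ × Fin (N + 1)), (∀ q, q ∉ C → w q = z q) →
      ar w = fun i => ar z i + PowerSeries.X ^ k * PowerSeries.C (w (i, k') - z (i, k')) := by
    intro z w hzw
    funext i
    ext j
    rw [map_add, coeff_ar, coeff_ar, mul_comm, PowerSeries.coeff_C_mul, PowerSeries.coeff_X_pow]
    by_cases hj : j < N + 1
    · rw [dif_pos hj, dif_pos hj]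
      by_cases hjk : j = k
      · subst hjk
        rw [if_pos rfl, mul_one]
        ring
      · rw [if_neg hjk, mul_zero, add_zero]
        refine hzw _ fun hc => ?_
        have := congrArg Fin.val ((hmC _).1 hc)
        exact hjk this
    · rw [dif_neg hj, dif_neg hj, if_neg (by omega), mul_zero, add_zero]
  have hcg : ∀ z w : Pt K (σ × Fin (N + 1)), (∀ q, q ∉ C → w q = z q) →
      ∀ i, Cg (k - 1) (ar w i) (ar z i) := by
    intro z w hzw i j hj
    rw [hdiff z w hzw, map_add, mul_comm, PowerSeries.coeff_C_mul, PowerSeries.coeff_X_pow,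
      if_neg (by omega), mul_zero, add_zero]
  have htay : ∀ z w : Pt K (σ × Fin (N + 1)), (∀ q, q ∉ C → w q = z q) →
      (∀ s, Vn e (aeval (ar z) (pderiv s f))) →
      (Vn N (aeval (ar z) f) → Vn N (aeval (ar w) f)) ∧
      PowerSeries.coeff N (aeval (ar w) f) = PowerSeries.coeff N (aeval (ar z) f) +
        ∑ s, PowerSeries.coeff e (aeval (ar z) (pderiv s f)) * (w (s, k') - z (s, k')) := by
    intro z w hzw hz
    have h3 := taylor2 (F := AlgebraicClosure K) f k (ar z)
      (fun i => PowerSeries.C (w (i, k') - z (i, k')))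
    rw [← hdiff z w hzw] at h3
    have h4 : ∀ s, ∃ b, aeval (ar z) (pderiv s f) = PowerSeries.X ^ e * b := fun s =>
      vn_iff.1 (hz s)
    choose b hb using h4
    have hcb : ∀ s, PowerSeries.coeff e (aeval (ar z) (pderiv s f)) = PowerSeries.coeff 0 (b s) := by
      intro s
      rw [hb s]
      have := PowerSeries.coeff_X_pow_mul (b s) e 0
      rwa [Nat.zero_add] at this
    have h5 : PowerSeries.X ^ k * ∑ s, aeval (ar z) (pderiv s f) *
        PowerSeries.C (w (s, k') - z (s, k')) = PowerSeries.X ^ N * ∑ s, b s *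
        PowerSeries.C (w (s, k') - z (s, k')) := by
      rw [Finset.mul_sum, Finset.mul_sum]
      refine Finset.sum_congr rfl fun s _ => ?_
      rw [hb s]
      have : (PowerSeries.X : PowerSeries (AlgebraicClosure K)) ^ N =
          PowerSeries.X ^ k * PowerSeries.X ^ e := by
        rw [← pow_add]
        congr 1
        omega
      rw [this]
      ring
    rw [h5] at h3
    obtain ⟨A, hA⟩ := h3
    have h6 : aeval (ar w) f = aeval (ar z) f + PowerSeries.X ^ N * ((∑ s, b s *
        PowerSeries.C (w (s, k') - z (s, k'))) + PowerSeries.X ^ (2 * k - N) * A) := by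
      have h7 : (PowerSeries.X : PowerSeries (AlgebraicClosure K)) ^ (2 * k) =
          PowerSeries.X ^ N * PowerSeries.X ^ (2 * k - N) := by
        rw [← pow_add]
        congr 1
        omega
      rw [h7] at hA
      linear_combination hA
    constructor
    · intro h8
      rw [vn_iff] at h8 ⊢
      rw [h6]
      exact dvd_add h8 (Dvd.intro _ rfl)
    · rw [h6, map_add]
      congr 1
      have h9 := PowerSeries.coeff_X_pow_mul ((∑ s, b s *
        PowerSeries.C (w (s, k') - z (s, k'))) + PowerSeries.X ^ (2 * k - N) * A) N 0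
      rw [Nat.zero_add] at h9
      rw [h9, map_add]
      have h10 : PowerSeries.coeff 0 (PowerSeries.X ^ (2 * k - N) * A) = 0 := by
        rw [PowerSeries.coeff_X_pow_mul', if_neg (by omega)]
      rw [h10, add_zero, map_sum]
      refine Finset.sum_congr rfl fun s _ => ?_
      rw [hcb, mul_comm (b s), PowerSeries.coeff_C_mul, mul_comm]
  have hgr : ∀ z w : Pt K (σ × Fin (N + 1)), (∀ q, q ∉ C → w q = z q) → ∀ s,
      ∀ j ≤ e, PowerSeries.coeff j (aeval (ar w) (pderiv s f)) =
        PowerSeries.coeff j (aeval (ar z) (pderiv s f)) := by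
    intro z w hzw s j hj
    exact cg_aevalK (pderiv s f) (k - 1) _ _ (hcg z w hzw) j (by omega)
  have hzr' : ∀ z : Pt K (σ × Fin (N + 1)), ∀ q, q ∉ C → zr z q = z q := by
    intro z q hq
    simp only [hzr]
    rw [if_neg]
    intro h
    exact hq ((hmC q).2 h)
  have key := sLin' M C 1 S D H hcyl.con ?_ ?_ ?_ ?_
  · rw [pow_one] at key
    rw [← key]
    congr 2
    ext z
    rw [Set.mem_inter_iff]
    have hsum : (P (ar z) ∧ GO f e (ar z)) → (PowerSeries.coeff N (aeval (ar z) f) =
        ∑ q ∈ C, D 0 q z * z q + H 0 z) := by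
      intro hz
      have h3 := (htay (zr z) z (fun q hq => (hzr' z q hq).symm) (fun s j hj => by
        rw [hgr z (zr z) (hzr' z) s j (by omega)]
        exact hz.2.1 s j hj)).2
      rw [h3, add_comm]
      congr 1
      rw [hC, Finset.sum_image (fun a _ b _ h => (Prod.mk.inj h).1)]
      refine Finset.sum_congr rfl fun s _ => ?_
      simp only [hD, hzr]
      rw [hgr z (zr z) (hzr' z) s e le_rfl, if_pos trivial, sub_zero]
    constructor
    · rintro ⟨h3, h4⟩
      refine ⟨⟨h3, vn_mono h4 (Nat.le_succ N)⟩, fun p => ?_⟩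
      rw [Subsingleton.elim p 0, ← hsum h3]
      exact h4 N (Nat.lt_succ_self N)
    · rintro ⟨⟨h3, h4⟩, h5⟩
      refine ⟨h3, fun j hj => ?_⟩
      rcases Nat.lt_succ_iff_lt_or_eq.1 hj with h6 | rfl
      · exact h4 j h6
      · rw [hsum h3]
        exact h5 0
  · intro p q
    exact pf_coeffK (fun z => z) (fun i => IsPF.coord _) _ _
  · intro p
    refine pf_coeffK zr (fun q => ?_) _ _
    simp only [hzr]
    by_cases h : q.2 = k'
    · simp only [if_pos h]
      exact IsPF.zero
    · simp only [if_neg h]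
      exact IsPF.coord _
  · intro z w hzw
    refine ⟨?_, ?_, ?_⟩
    · rintro ⟨⟨h3, h4, s, h5⟩, h6⟩
      refine ⟨⟨?_, fun s j hj => ?_, s, ?_⟩, ?_⟩
      · exact (hP.det _ _ fun i => cg_mono (by omega) (hcg z w hzw i)).2 h3
      · rw [hgr z w hzw s j (by omega)]
        exact h4 s j hj
      · rw [hgr z w hzw s e le_rfl]
        exact h5
      · exact (htay z w hzw h4).1 h6
    · intro p q
      exact hgr z w hzw q.1 e le_rfl
    · intro p
      simp only [hH]
      have : zr w = zr z := by
        funext q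
        simp only [hzr]
        by_cases h : q.2 = k'
        · rw [if_pos h, if_pos h]
        · rw [if_neg h, if_neg h]
          exact hzw q fun hc => h ((hmC q).1 hc)
      rw [this]
  · rintro z ⟨⟨_, _, s, hs⟩, _⟩ l hl p
    have h3 := hl (s, k') ((hmC _).2 rfl)
    rw [Fin.sum_univ_one] at h3
    rw [Subsingleton.elim p 0]
    exact (mul_eq_zero.1 h3).resolve_right hs

variable {v : R} (hv : M.L * v = 1)
include hv

theorem step_vo (f : MvPolynomial σ K) {P : Arc K σ → Prop} {q e N : ℕ} (hP : Cyl P q)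
    (h1 : 2 * e < N) (h2 : q + e < N) :
    vo M v (fun γ => (P γ ∧ GO f e γ) ∧ Vn (N + 1) (aeval γ f)) =
      v * vo M v (fun γ => (P γ ∧ GO f e γ) ∧ Vn N (aeval γ f)) := by
  have hc : Cyl (fun γ : Arc K σ => P γ ∧ GO f e γ) N :=
    (hP.mono (by omega)).and (cyl_GO f (by omega))
  rw [vo_eq M hv (hc.and (Cyl.vn f (N := N + 1) le_rfl)),
    vo_eq M hv (hc.and (Cyl.vn f (N := N) (by omega)))]
  unfold vq
  have h3 := step_chi M f hP h1 h2
  rw [← h3]
  linear_combination -(M.χ _ {z : Pt K (σ × Fin (N + 1)) | (P (ar z) ∧ GO f e (ar z)) ∧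
    Vn (N + 1) (aeval (ar z) f)} * v ^ (Fintype.card σ * (N + 1))) * hv

/-- **The volumes on a set on which the order of the gradient is bounded.** -/
theorem stable (f : MvPolynomial σ K) : ∀ (e : ℕ) {P : Arc K σ → Prop} {q : ℕ}, Cyl P q →
    (∀ γ, P γ → ∃ s, ¬ Vn e (aeval γ (pderiv s f))) → ∃ N₀, ∀ N, N₀ ≤ N →
      vo M v (fun γ => P γ ∧ Vn (N + 1) (aeval γ f)) =
        v * vo M v (fun γ => P γ ∧ Vn N (aeval γ f)) := by
  intro e
  induction e with
  | zero =>
    intro P q hP h
    refine ⟨0, fun N _ => ?_⟩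
    have h1 : ∀ γ, ¬ P γ := by
      intro γ hγ
      obtain ⟨s, hs⟩ := h γ hγ
      exact hs fun j hj => absurd hj (Nat.not_lt_zero j)
    rw [vo_false M hv fun γ hγ => h1 γ hγ.1, vo_false M hv fun γ hγ => h1 γ hγ.1, mul_zero]
  | succ e ih =>
    intro P q hP h
    set Q : Arc K σ → Prop := fun γ => ∀ s, Vn e (aeval γ (pderiv s f)) with hQ
    have hQc : Cyl Q e := Cyl.all fun s => Cyl.vn (pderiv s f) (by omega)
    have hPQ : Cyl (fun γ => P γ ∧ ¬ Q γ) (max q e) :=
      (hP.mono (le_max_left _ _)).and (hQc.mono (le_max_right _ _)).not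
    obtain ⟨N₀, hN₀⟩ := ih hPQ (by
      rintro γ ⟨_, h2⟩
      by_contra hc
      push Not at hc
      exact h2 hc)
    refine ⟨N₀ + (2 * e + q + 1), fun N hN => ?_⟩
    have h3 : ∀ N', vo M v (fun γ => P γ ∧ Vn N' (aeval γ f)) =
        vo M v (fun γ => (P γ ∧ GO f e γ) ∧ Vn N' (aeval γ f)) +
        vo M v (fun γ => (P γ ∧ ¬ Q γ) ∧ Vn N' (aeval γ f)) := by
      intro N'
      have hPN : Cyl (fun γ => P γ ∧ Vn N' (aeval γ f)) (max q N') :=
        (hP.mono (le_max_left _ _)).and (Cyl.vn f (by omega))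
      rw [vo_split M hv hPN hQc]
      congr 1
      · refine vo_congr M fun γ => ?_
        constructor
        · rintro ⟨⟨h4, h5⟩, h6⟩
          refine ⟨⟨h4, h6, ?_⟩, h5⟩
          obtain ⟨s, hs⟩ := h γ h4
          refine ⟨s, fun h7 => hs fun j hj => ?_⟩
          rcases Nat.lt_succ_iff_lt_or_eq.1 hj with h8 | rfl
          · exact h6 s j h8
          · exact h7
        · rintro ⟨⟨h4, h6, _⟩, h5⟩
          exact ⟨⟨h4, h5⟩, h6⟩
      · refine vo_congr M fun γ => ?_
        tauto
    rw [h3, h3, step_vo M hv f hP (by omega) (by omega), hN₀ N (by omega), mul_add]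

end Pool.Agent.H940.Z
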